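import Mathlib
import Pool.Agent.Y22.SB3

set_option autoImplicit false

namespace Pool.Agent.Results.MP_fd050c_an.SpacesContainingCzero

open Filter Topology TopologicalSpace
open scoped ZeroAtInfty
open Pool.Agent.Results.MP_fd050c_an.NoCompleteAuerbach (IsNormalCompleteMinimal)
open Pool.Agent.Y22.SB

/-- Let `X` be a separable normed space with a subspace isomorphic to `c₀` (the image of `J`).  There
is an equivalent norm `q` on `X`, with `q (J u) = ‖u‖`, such that arbitrarily near `q` there are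
norms for which `X` contains no normal complete minimal sequence. -/
theorem result (𝕜 : Type) [RCLike 𝕜] (X : Type) [NormedAddCommGroup X] [NormedSpace 𝕜 X]
    [SeparableSpace X] (J : C₀(ℕ, 𝕜) →L[𝕜] X) (m : ℝ) (hm : 0 < m)
    (hJ : ∀ u, m * ‖u‖ ≤ ‖J u‖) :
    ∃ q : Seminorm 𝕜 X, (∃ a C : ℝ, 0 < a ∧ 0 < C ∧ ∀ x, a * ‖x‖ ≤ q x ∧ q x ≤ C * ‖x‖) ∧
      (∀ u, q (J u) = ‖u‖) ∧
      ∀ η : ℝ, 0 < η → ∃ (Y : Type) (_ : NormedAddCommGroup Y) (_ : NormedSpace 𝕜 Y)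
        (T : X ≃L[𝕜] Y), (∀ x, q x ≤ ‖T x‖ ∧ ‖T x‖ ≤ (1 + η) * q x) ∧
          (CompleteSpace X → CompleteSpace Y) ∧
          ¬ ∃ (v : ℕ → Y) (f : ℕ → StrongDual 𝕜 Y), IsNormalCompleteMinimal 𝕜 v f := by
  obtain ⟨P, hP⟩ := sobczyk J m hm hJ
  obtain ⟨q, hq, hD⟩ := exists_dat J P hP
  have hP0 : 0 ≤ ‖P‖ := P.opNorm_nonneg
  have hJ0 : 0 ≤ ‖J‖ := J.opNorm_nonneg
  have hlow : ∀ x, (1 / (1 + ‖J‖)) * ‖x‖ ≤ q x := by
    intro x
    rw [one_div, inv_mul_le_iff₀ (by positivity)]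
    have h1 : ‖P x‖ ≤ q x := by rw [hq]; exact le_max_left _ _
    have h2 : ‖x - J (P x)‖ ≤ q x := by rw [hq]; exact le_max_right _ _
    have h3 := J.le_opNorm (P x)
    have h4 : ‖J‖ * ‖P x‖ ≤ ‖J‖ * q x := mul_le_mul_of_nonneg_left h1 hJ0
    have h5 : ‖x‖ ≤ ‖x - J (P x)‖ + ‖J (P x)‖ := by
      have := norm_add_le (x - J (P x)) (J (P x))
      rwa [sub_add_cancel] at this
    linarith
  have hupp : ∀ x, q x ≤ (1 + ‖P‖ + ‖J‖ * ‖P‖) * ‖x‖ := by
    intro x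
    have h1 := P.le_opNorm x
    have h2 := J.le_opNorm (P x)
    have h3 : ‖J‖ * ‖P x‖ ≤ ‖J‖ * (‖P‖ * ‖x‖) := mul_le_mul_of_nonneg_left h1 hJ0
    have h4 := norm_sub_le x (J (P x))
    have h5 : 0 ≤ ‖J‖ * ‖P‖ * ‖x‖ := by positivity
    have h6 : 0 ≤ ‖P‖ * ‖x‖ := by positivity
    rw [hq]
    apply max_le
    · nlinarith [norm_nonneg x]
    · nlinarith [norm_nonneg x]
  refine ⟨q, ⟨1 / (1 + ‖J‖), 1 + ‖P‖ + ‖J‖ * ‖P‖, by positivity, by positivity,
    fun x => ⟨hlow x, hupp x⟩⟩, fun u => ?_, fun η hη => ?_⟩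
  · rw [hq, hP, sub_self, norm_zero]
    exact max_eq_left (norm_nonneg _)
  obtain ⟨D, hDq, hDη⟩ := hD (min 1 (2 / 5 * η)) (by positivity) (min_le_left _ _)
  have hq0 : ∀ x, D.q x = 0 → x = 0 := by
    intro x hx
    rw [hDq] at hx
    have h1 := hlow x
    rw [hx] at h1
    by_contra h2
    have h3 : 0 < ‖x‖ := norm_pos_iff.mpr h2
    have h4 : 0 < (1 / (1 + ‖J‖)) * ‖x‖ := by positivity
    linarith
  letI iA : NormedAddCommGroup (Re D) := NormedAddCommGroup.ofCore (core_Re D hq0)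
  letI iB : NormedSpace 𝕜 (Re D) := NormedSpace.ofCore (core_Re D hq0)
  have hN1 : ∀ x, q x ≤ ‖toRe D x‖ := by
    intro x
    have := D.q_le_N x
    rw [hDq] at this
    exact this
  have hN2 : ∀ x, ‖toRe D x‖ ≤ (1 + η) * q x := by
    intro x
    have h1 := D.N_le x
    rw [hDq] at h1
    have h2 : 1 + 5 / 2 * D.η ≤ 1 + η := by
      rw [hDη]
      have := min_le_right 1 (2 / 5 * η)
      linarith
    exact h1.trans (mul_le_mul_of_nonneg_right h2 (apply_nonneg _ _))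
  let T : X ≃L[𝕜] Re D := (toRe D).toContinuousLinearEquivOfBounds
    ((1 + η) * (1 + ‖P‖ + ‖J‖ * ‖P‖)) (1 + ‖J‖)
    (fun x => by
      calc ‖toRe D x‖ ≤ (1 + η) * q x := hN2 x
        _ ≤ (1 + η) * ((1 + ‖P‖ + ‖J‖ * ‖P‖) * ‖x‖) :=
            mul_le_mul_of_nonneg_left (hupp x) (by positivity)
        _ = _ := by ring)
    (fun y => by
      obtain ⟨x, rfl⟩ := (toRe D).surjective y
      rw [LinearEquiv.symm_apply_apply]
      have h1 := hlow x
      rw [one_div, inv_mul_le_iff₀ (by positivity)] at h1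
      exact h1.trans (mul_le_mul_of_nonneg_left (hN1 x) (by positivity)))
  refine ⟨Re D, iA, iB, T, fun x => ⟨hN1 x, hN2 x⟩, fun hX => ?_, ?_⟩
  · exact (completeSpace_congr (e := T.toEquiv) T.isUniformEmbedding).1 hX
  · rintro ⟨v, g, h⟩
    exact no_complete D (toRe D) (fun x => rfl) v g h

end Pool.Agent.Results.MP_fd050c_an.SpacesContainingCzero
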